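import Pool.Agent.H668.Ene.Proj
import Pool.Agent.H668.Fib.Count

/-!
# Families of lines with small doubling: the volume
-/

set_option autoImplicit false

open Finset Set MeasureTheory
open scoped Pointwise ENNReal

namespace Pool.Agent.H668.Ene
open Pool.Agent.W46.KK Pool.Agent.H668.Str

theorem ene_core (S : Finset ℚ) (hS : (-1 : ℚ) ∉ S) (d : ℕ) (lam : ℝ) (hlam : 0 < lam)
    (H : ℝ) (hH : 0 < H) :
    ∃ m : ℕ, ∃ c : ℝ, 0 < c ∧ ∀ (s : ℝ), 0 < s → s ≤ 1 → ∀ (ι : Type) (I : Finset ι)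
      (v p : ι → Fin d → ℝ) (b : ι → ℝ),
      (∀ i ∈ I, ∀ j ∈ I, i ≠ j → fl s (v i) ≠ fl s (v j)) →
      (∀ i ∈ I, ∀ l, |v i l| ≤ H) → (∀ i ∈ I, |b i| ≤ H) →
      ∀ M : ℝ, 1 ≤ M →
      (((I.image fun i => zc s (v i) (p i)) - (I.image fun i => zc s (v i) (p i))).card : ℝ) ≤
        M * (I.card : ℝ) →
      ∀ (T : Set (ℝ × (Fin d → ℝ))), MeasurableSet T →
      (∀ i ∈ I, ∀ t ∈ Set.Icc (b i) (b i + lam), ∀ y : Fin d → ℝ,
        (∀ l, |y l - (p i l + t * v i l)| ≤ s) → (t, y) ∈ T) →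
      ENNReal.ofReal (c * (M ^ m)⁻¹ * s ^ d * s ^ ((d : ℝ) / (S.card + 1)) * (I.card : ℝ)) ≤
        volume T := by
  classical
  obtain ⟨m, η, κ, hη, hκ, hslab⟩ := slab S hS d (lam / 2) (by positivity)
  set μ : ℝ := lam / 2 with hμ
  have hμpos : 0 < μ := by positivity
  set θ : ℝ := (S.card : ℝ) / (S.card + 1) with hθ
  have hSc : (0 : ℝ) ≤ S.card := Nat.cast_nonneg _
  -- number of classes
  set r : ℕ := ⌈2 / η⌉₊ + 1 with hr
  have hrpos : 0 < r := by omega
  set Q : ℤ := ⌈H / μ⌉ with hQ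
  have hQ0 : 0 ≤ Q := Int.ceil_nonneg (by positivity)
  set q0 : ℝ := (r : ℝ) ^ d * (2 * (Q : ℝ) + 1) with hq0
  have hq0pos : 0 < q0 := by
    have h1 : (0 : ℝ) ≤ Q := by exact_mod_cast hQ0
    have h2 : (0 : ℝ) < r := by exact_mod_cast hrpos
    positivity
  have hq01 : 1 ≤ q0 := by
    have h1 : (0 : ℝ) ≤ Q := by exact_mod_cast hQ0
    have h2 : (1 : ℝ) ≤ r := by exact_mod_cast hrpos
    have h3 : (1 : ℝ) ≤ (r : ℝ) ^ d := one_le_pow₀ h2
    rw [hq0]
    nlinarith
  set o : ℤ := ⌈2 * (H + lam) + 4⌉ with ho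
  have ho1 : 2 * (H + lam) + 4 ≤ (o : ℝ) := Int.le_ceil _
  have ho0 : 0 ≤ o := Int.ceil_nonneg (by positivity)
  set Cb : ℝ := ((2 * o + 1 : ℤ) : ℝ) ^ d with hCb
  have hCb1 : 1 ≤ Cb := by
    apply one_le_pow₀
    exact_mod_cast (by omega : (1 : ℤ) ≤ 2 * o + 1)
  set Cn : ℝ := (2 * H + 5) ^ d with hCn
  have hCn0 : 0 < Cn := by positivity
  refine ⟨3 * m, κ * ((Cb * q0 ^ 3) ^ m)⁻¹ * (q0⁻¹ * Cn ^ (-(1 / ((S.card : ℝ) + 1)))),
    by positivity, ?_⟩
  intro s hs hs1 ι I v p b hsep hv hb M hM hdoub T hT hTn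
  rcases I.eq_empty_or_nonempty with hI | hIne
  · rw [hI, Finset.card_empty, Nat.cast_zero, mul_zero, ENNReal.ofReal_zero]
    exact zero_le
  have hIpos : (0 : ℝ) < I.card := by exact_mod_cast hIne.card_pos
  set z : ι → (Fin d → ℤ) × (Fin d → ℤ) := fun i => zc s (v i) (p i) with hz
  set B := I.image z with hB
  have hzinj : Set.InjOn z (I : Set ι) := by
    intro i hi j hj h
    by_contra hne
    exact hsep i hi j hj hne (congrArg Prod.fst h)
  -- the popular class
  set cls : ι → (Fin d → ℤ) × ℤ := fun i => (fun l => fl s (v i) l % (r : ℤ), ⌈b i / μ⌉) with hcls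
  set Tg : Finset ((Fin d → ℤ) × ℤ) :=
    (Fintype.piFinset fun _ : Fin d => Finset.Ico (0 : ℤ) r) ×ˢ Finset.Icc (-Q) Q with hTg
  have hTgc : (Tg.card : ℝ) = q0 := by
    rw [hTg, Finset.card_product, Fintype.card_piFinset, Finset.prod_const, Finset.card_univ,
      Fintype.card_fin, Int.card_Icc, Int.card_Ico, hq0]
    have h0 : 0 ≤ Q + 1 - -Q := by omega
    have h2 : (((Q + 1 - -Q).toNat : ℤ) : ℝ) = ((Q + 1 - -Q : ℤ) : ℝ) := by
      rw [Int.toNat_of_nonneg h0]
    rw [Int.cast_natCast] at h2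
    push_cast at h2 ⊢
    rw [h2]
    simp
    ring
  have hTgne : Tg.Nonempty := by
    rw [← Finset.card_pos]
    have : (0 : ℝ) < Tg.card := by rw [hTgc]; exact hq0pos
    exact_mod_cast this
  have hmaps : ∀ i ∈ I, cls i ∈ Tg := by
    intro i hi
    rw [hTg, Finset.mem_product]
    constructor
    · rw [Fintype.mem_piFinset]
      intro l
      rw [Finset.mem_Ico]
      have hr0 : (0 : ℤ) < r := by exact_mod_cast hrpos
      exact ⟨Int.emod_nonneg _ hr0.ne', Int.emod_lt_of_pos _ hr0⟩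
    · rw [Finset.mem_Icc]
      have h1 := abs_le.1 (hb i hi)
      have h2 : b i / μ ≤ H / μ := div_le_div_of_nonneg_right h1.2 hμpos.le
      have h3 : -(H / μ) ≤ b i / μ := by
        rw [← neg_div]; exact div_le_div_of_nonneg_right h1.1 hμpos.le
      have h4 : ⌈b i / μ⌉ ≤ ⌈H / μ⌉ := Int.ceil_le_ceil h2
      have h5 : -⌈H / μ⌉ ≤ ⌈b i / μ⌉ := by
        have h6 : (-(⌈H / μ⌉ : ℤ) : ℝ) ≤ (⌈b i / μ⌉ : ℤ) := by
          have := Int.le_ceil (H / μ)
          have := Int.le_ceil (b i / μ)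
          linarith
        exact_mod_cast h6
      exact ⟨h5, h4⟩
  obtain ⟨cl, -, hcl⟩ := Finset.exists_le_card_fiber_of_nsmul_le_card_of_maps_to
    (s := I) (t := Tg) (f := cls) (b := (I.card : ℝ) / q0) hmaps hTgne (by
      rw [nsmul_eq_mul, hTgc]
      apply le_of_eq
      field_simp)
  set J := I.filter fun i => cls i = cl with hJ
  have hJI : J ⊆ I := Finset.filter_subset _ _
  have hJpos : (0 : ℝ) < J.card := lt_of_lt_of_le (by positivity) hcl
  have hJne : J.Nonempty := by rw [← Finset.card_pos]; exact_mod_cast hJpos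
  -- doubling of the class
  set BJ := J.image z with hBJ
  have hBJc : (BJ.card : ℝ) = J.card := by
    rw [hBJ, Finset.card_image_of_injOn (hzinj.mono (Finset.coe_subset.2 hJI))]
  have hBJne : BJ.Nonempty := hJne.image _
  have hBJpos : (0 : ℝ) < BJ.card := by rw [hBJc]; exact hJpos
  have hdJ : ((BJ - BJ).card : ℝ) ≤ M * q0 * BJ.card := by
    have h1 : BJ - BJ ⊆ B - B := by
      have h2 : BJ ⊆ B := Finset.image_subset_image hJI
      exact Finset.sub_subset_sub h2 h2
    have h3 : ((BJ - BJ).card : ℝ) ≤ ((B - B).card : ℝ) := by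
      exact_mod_cast Finset.card_le_card h1
    refine (h3.trans hdoub).trans ?_
    rw [hBJc, mul_assoc]
    apply mul_le_mul_of_nonneg_left _ (by linarith)
    rw [div_le_iff₀ hq0pos] at hcl
    linarith
  have htriple : ((BJ + BJ - BJ).card : ℝ) ≤ (M * q0) ^ 3 * BJ.card := by
    have h1 := Finset.pluennecke_ruzsa_inequality_nsmul_sub_nsmul_sub hBJne BJ 2 1
    rw [two_nsmul, one_nsmul] at h1
    have h2 : (((BJ + BJ - BJ).card : ℚ≥0) : ℝ) ≤
        (((((BJ - BJ).card : ℚ≥0) / (BJ.card : ℚ≥0)) ^ (2 + 1) * (BJ.card : ℚ≥0) : ℚ≥0) : ℝ) := by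
      exact_mod_cast h1
    push_cast at h2
    have h3 : ((BJ - BJ).card : ℝ) / BJ.card ≤ M * q0 := by
      rw [div_le_iff₀ hBJpos]; exact hdJ
    calc ((BJ + BJ - BJ).card : ℝ)
        ≤ (((BJ - BJ).card : ℝ) / BJ.card) ^ (2 + 1) * BJ.card := h2
      _ ≤ (M * q0) ^ 3 * BJ.card := by gcongr
  -- the slopes
  set V : Finset (Fin d → ℝ) := J.image v with hV
  have hvinj : Set.InjOn v (J : Set ι) := by
    intro i hi j hj h
    by_contra hne
    exact hsep i (hJI hi) j (hJI hj) hne (by rw [h])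
  have hVc : (V.card : ℝ) = J.card := by rw [hV, Finset.card_image_of_injOn hvinj]
  obtain ⟨iv, hiv⟩ : ∃ iv : (Fin d → ℝ) → ι, ∀ i ∈ J, iv (v i) = i := by
    obtain ⟨i₀, hi₀⟩ := hJne
    have : Nonempty ι := ⟨i₀⟩
    refine ⟨Function.invFunOn v (J : Set ι), ?_⟩
    intro i hi
    have h1 : v (Function.invFunOn v (J : Set ι) (v i)) = v i :=
      Function.invFunOn_eq ⟨i, hi, rfl⟩
    have h2 : Function.invFunOn v (J : Set ι) (v i) ∈ (J : Set ι) :=
      Function.invFunOn_mem ⟨i, hi, rfl⟩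
    exact hvinj h2 hi h1
  have hkey := hslab s hs V (hJne.image _) (fun w => p (iv w)) ((cl.2 : ℝ) * μ) T hT ?_
    (Cb * (M * q0) ^ 3) 1 ?_ le_rfl ∅ (by simp) ?_
  rotate_left
  · -- separation
    intro x hx y hy hxy
    obtain ⟨i, hi, rfl⟩ := Finset.mem_image.1 hx
    obtain ⟨j, hj, rfl⟩ := Finset.mem_image.1 hy
    have hij : i ≠ j := fun h => hxy (by rw [h])
    have hci : cls i = cl := (Finset.mem_filter.1 hi).2
    have hcj : cls j = cl := (Finset.mem_filter.1 hj).2
    have hne := hsep i (hJI hi) j (hJI hj) hij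
    obtain ⟨l, hl⟩ := Function.ne_iff.1 hne
    refine ⟨l, ?_⟩
    have hmod : fl s (v i) l % (r : ℤ) = fl s (v j) l % (r : ℤ) := by
      have h1 := congrFun (congrArg Prod.fst (hci.trans hcj.symm)) l
      exact h1
    have hdvd : (r : ℤ) ∣ fl s (v i) l - fl s (v j) l :=
      Int.ModEq.dvd (show fl s (v j) l ≡ fl s (v i) l [ZMOD r] from hmod.symm)
    have habs : (r : ℤ) ≤ |fl s (v i) l - fl s (v j) l| := by
      apply Int.le_of_dvd
      · exact abs_pos.2 (sub_ne_zero.2 hl)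
      · exact (dvd_abs _ _).2 hdvd
    have habs' : (r : ℝ) ≤ |((fl s (v i) l : ℤ) : ℝ) - ((fl s (v j) l : ℤ) : ℝ)| := by
      have : ((r : ℤ) : ℝ) ≤ ((|fl s (v i) l - fl s (v j) l| : ℤ) : ℝ) := by exact_mod_cast habs
      rw [Int.cast_abs] at this
      push_cast at this
      exact this
    have a1 := Int.floor_le (v i l / s)
    have a2 := Int.lt_floor_add_one (v i l / s)
    have b1 := Int.floor_le (v j l / s)
    have b2 := Int.lt_floor_add_one (v j l / s)
    have hrr : 2 / η + 1 ≤ (r : ℝ) := by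
      rw [hr]; push_cast
      linarith [Nat.le_ceil (2 / η)]
    have h7 : 2 / η ≤ |v i l / s - v j l / s| := by
      have e1 : ((fl s (v i) l : ℤ) : ℝ) = (⌊v i l / s⌋ : ℝ) := rfl
      have e2 : ((fl s (v j) l : ℤ) : ℝ) = (⌊v j l / s⌋ : ℝ) := rfl
      rw [e1, e2] at habs'
      rcases le_abs.1 habs' with h | h
      · exact le_abs.2 (Or.inl (by linarith))
      · exact le_abs.2 (Or.inr (by linarith))
    rw [← sub_div, abs_div, abs_of_pos hs, le_div_iff₀ hs] at h7
    calc 2 * s / η = 2 / η * s := by ring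
      _ ≤ |v i l - v j l| := h7
  · exact one_le_mul_of_one_le_of_one_le hCb1 (one_le_pow₀ (one_le_mul_of_one_le_of_one_le hM hq01))
  · -- the slices
    intro t ht _
    have htI : ∀ i ∈ J, t ∈ Set.Icc (b i) (b i + lam) := by
      intro i hi
      have hci : cls i = cl := (Finset.mem_filter.1 hi).2
      have h0 : ⌈b i / μ⌉ = cl.2 := congrArg Prod.snd hci
      have h1 : b i / μ ≤ cl.2 := by rw [← h0]; exact Int.le_ceil _
      have h2 : (cl.2 : ℝ) < b i / μ + 1 := by rw [← h0]; exact Int.ceil_lt_add_one _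
      rw [div_le_iff₀ hμpos] at h1
      have h3 : (cl.2 : ℝ) * μ < b i + μ := by
        have := mul_lt_mul_of_pos_right h2 hμpos
        rwa [add_mul, one_mul, div_mul_cancel₀ _ hμpos.ne'] at this
      have hlam' : lam = 2 * μ := by rw [hμ]; ring
      constructor
      · linarith [ht.1]
      · linarith [ht.2]
    have htH : |t| ≤ H + lam := by
      obtain ⟨i, hi⟩ := hJne
      have h1 := htI i hi
      have h2 := abs_le.1 (hb i (hJI hi))
      rw [abs_le]
      constructor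
      · linarith [h1.1, h2.1]
      · linarith [h1.2, h2.2]
    set P : Set (Fin d → ℝ) := (fun i => fun l => p i l + t * v i l) '' (J : Set ι) with hP
    have hPeq : (fun w => fun l => p (iv w) l + t * w l) '' (V : Set (Fin d → ℝ)) = P := by
      ext x
      constructor
      · rintro ⟨w, hw, rfl⟩
        obtain ⟨i, hi, rfl⟩ := Finset.mem_image.1 (Finset.mem_coe.1 hw)
        refine ⟨i, hi, ?_⟩
        dsimp only
        rw [hiv i hi]
      · rintro ⟨i, hi, rfl⟩
        refine ⟨v i, Finset.mem_coe.2 (Finset.mem_image_of_mem _ hi), ?_⟩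
        dsimp only
        rw [hiv i hi]
    have hPfin : P.Finite := (Finset.finite_toSet J).image _
    refine ⟨((cells s P).ncard : ℝ), Nat.cast_nonneg _, ?_, ?_⟩
    · -- volume of the slice
      have hrep : ∀ x : Fin d → ℤ, ∃ y : Fin d → ℝ, x ∈ cells s P → y ∈ P ∧ fl s y = x := by
        intro x
        by_cases h : x ∈ cells s P
        · obtain ⟨y, hy, hyx⟩ := h
          exact ⟨y, fun _ => ⟨hy, hyx⟩⟩
        · exact ⟨0, fun h' => absurd h' h⟩
      choose f hf using hrep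
      have h1 := card_mul_le hs (dc s P) f (Prod.mk t ⁻¹' T) (by
        intro x hx y hy
        rw [mem_dc hs hPfin.isBounded] at hx
        obtain ⟨i, hi, hif⟩ := (hf x hx).1
        apply hTn i (hJI hi) t (htI i hi) y
        intro l
        have := hy l
        rw [← hif] at this
        exact this)
      have h2 : (dc s P).image (fun x => fl s (f x)) = dc s P := by
        ext x
        rw [Finset.mem_image]
        constructor
        · rintro ⟨u, hu, rfl⟩
          have hu' := hu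
          rw [mem_dc hs hPfin.isBounded] at hu'
          rw [(hf u hu').2]
          exact hu
        · intro hx
          have hx' := hx
          rw [mem_dc hs hPfin.isBounded] at hx'
          exact ⟨x, hx, (hf x hx').2⟩
      rw [h2, card_dc hs hPfin.isBounded] at h1
      rw [ENNReal.ofReal_mul (Nat.cast_nonneg _), ENNReal.ofReal_natCast, ENNReal.ofReal_pow hs.le]
      exact h1
    · rw [hPeq]
      refine ⟨{P}, by simp, ?_, ?_⟩
      · intro x hx
        simp only [Finset.mem_singleton, Set.iUnion_iUnion_eq_left]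
        exact hx
      · intro D hD
        rw [Finset.mem_singleton] at hD
        subst hD
        refine ⟨hPfin.isBounded, ?_, ?_⟩
        · have h1 := proj_double hs J v p t (H + lam) htH
            (hzinj.mono (Finset.coe_subset.2 hJI)) o ho1 BJ
            (fun i hi => Finset.mem_image_of_mem _ hi) P hP
          have h2 : ((cells s (P + P)).ncard : ℝ) * (J.card : ℝ) ≤
              (Cb * (M * q0) ^ 3 * ((cells s P).ncard : ℝ)) * (J.card : ℝ) := by
            refine h1.trans ?_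
            calc Cb * (((BJ + BJ - BJ).card : ℝ) * ((cells s P).ncard : ℝ))
                ≤ Cb * (((M * q0) ^ 3 * BJ.card) * ((cells s P).ncard : ℝ)) := by gcongr
              _ = _ := by rw [hBJc]; ring
          exact le_of_mul_le_mul_right h2 hJpos
        · have h1 : 1 ≤ Cb * (M * q0) ^ 3 := one_le_mul_of_one_le_of_one_le hCb1
            (one_le_pow₀ (one_le_mul_of_one_le_of_one_le hM hq01))
          have h2 : (0 : ℝ) ≤ ((cells s P).ncard : ℝ) := Nat.cast_nonneg _
          nlinarith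
  · refine le_trans ?_ (hkey.trans (measure_mono Set.inter_subset_left))
    apply ENNReal.ofReal_le_ofReal
    rw [mul_one, hVc]
    -- the number of slopes
    have hJle : (J.card : ℝ) ≤ Cn * (s⁻¹) ^ d := by
      have h1 : (J.card : ℝ) ≤ ((cells s (v '' (J : Set ι))).ncard : ℝ) := by
        have hfin : (v '' (J : Set ι)).Finite := (Finset.finite_toSet J).image _
        rw [← card_dc hs hfin.isBounded]
        have h2 : J.card ≤ (dc s (v '' (J : Set ι))).card := by
          apply Finset.card_le_card_of_injOn (fun i => fl s (v i))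
          · intro i hi
            exact (mem_dc hs hfin.isBounded _).2 ⟨v i, ⟨i, hi, rfl⟩, rfl⟩
          · intro i hi j hj h
            by_contra hne
            exact hsep i (hJI hi) j (hJI hj) hne h
        exact_mod_cast h2
      refine h1.trans ?_
      apply Pool.Agent.H668.Fib.cells_ball_le hs hs1 hH.le
      rintro _ ⟨i, hi, rfl⟩ l
      exact hv i (hJI hi) l
    set e : ℝ := 1 / ((S.card : ℝ) + 1) with he
    have he0 : 0 < e := by rw [he]; positivity
    have hθe : θ = 1 + -e := by rw [hθ, he]; field_simp; ring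
    have h1 : (Cn * (s⁻¹) ^ d) ^ (-e) ≤ (J.card : ℝ) ^ (-e) :=
      Real.rpow_le_rpow_of_nonpos hJpos hJle (by linarith)
    have h2 : (Cn * (s⁻¹) ^ d) ^ (-e) = Cn ^ (-e) * s ^ ((d : ℝ) / (S.card + 1)) := by
      rw [Real.mul_rpow hCn0.le (by positivity), ← Real.rpow_natCast, Real.inv_rpow hs.le,
        ← Real.rpow_neg hs.le, ← Real.rpow_mul hs.le]
      congr 2
      rw [he]
      ring
    have h3 : (J.card : ℝ) ^ θ = J.card * (J.card : ℝ) ^ (-e) := by
      rw [hθe, Real.rpow_add hJpos, Real.rpow_one]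
    have h4 : (I.card : ℝ) / q0 * (Cn ^ (-e) * s ^ ((d : ℝ) / (S.card + 1))) ≤
        (J.card : ℝ) ^ θ := by
      rw [h3, ← h2]
      exact mul_le_mul hcl h1 (by positivity) hJpos.le
    have h5 : ((Cb * (M * q0) ^ 3) ^ m)⁻¹ = ((Cb * q0 ^ 3) ^ m)⁻¹ * (M ^ (3 * m))⁻¹ := by
      rw [← mul_inv]
      congr 1
      rw [pow_mul M 3 m, ← mul_pow]
      congr 1
      ring
    rw [h5]
    calc κ * ((Cb * q0 ^ 3) ^ m)⁻¹ * (q0⁻¹ * Cn ^ (-e)) * (M ^ (3 * m))⁻¹ * s ^ d *
          s ^ ((d : ℝ) / (S.card + 1)) * (I.card : ℝ)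
        = κ * (((Cb * q0 ^ 3) ^ m)⁻¹ * (M ^ (3 * m))⁻¹) * s ^ d *
          ((I.card : ℝ) / q0 * (Cn ^ (-e) * s ^ ((d : ℝ) / (S.card + 1)))) := by ring
      _ ≤ κ * (((Cb * q0 ^ 3) ^ m)⁻¹ * (M ^ (3 * m))⁻¹) * s ^ d * (J.card : ℝ) ^ θ := by
          gcongr

end Pool.Agent.H668.Ene
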