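import Pool.Agent.H668.Ene.Core
import Pool.Agent.W46.KK.Tubes

/-!
# Families of lines with large additive energy
-/

set_option autoImplicit false

open Finset Set MeasureTheory
open scoped Pointwise ENNReal

namespace Pool.Agent.H668.Ene
open Pool.Agent.W46.KK Pool.Agent.H668.Str

/-- shifted quadruples are not more than the unshifted ones -/
theorem shifted_le {G : Type} [AddCommGroup G] [DecidableEq G] (A : Finset G) (e : G) :
    ((A ×ˢ A ×ˢ A ×ˢ A).filter fun q => q.1 + q.2.1 = q.2.2.1 + q.2.2.2 + e).card ≤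
      A.addEnergy A := by
  classical
  set r : G → ℕ := fun x => ((A ×ˢ A).filter (fun q => q.1 + q.2 = x)).card with hr
  have hE : A.addEnergy A = ∑ x ∈ A + A, r x ^ 2 := by
    rw [Finset.addEnergy_eq_sum_sq']
  have hr0 : ∀ x, x ∉ A + A → r x = 0 := by
    intro x hx
    rw [hr]
    dsimp only
    rw [Finset.card_eq_zero, Finset.filter_eq_empty_iff]
    rintro ⟨a, b⟩ hab h
    rw [Finset.mem_product] at hab
    exact hx (h ▸ Finset.add_mem_add hab.1 hab.2)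
  have h1 : ((A ×ˢ A ×ˢ A ×ˢ A).filter fun q => q.1 + q.2.1 = q.2.2.1 + q.2.2.2 + e).card ≤
      ∑ x ∈ A + A, r x * r (x - e) := by
    have hmaps : ∀ q ∈ (A ×ˢ A ×ˢ A ×ˢ A).filter (fun q => q.1 + q.2.1 = q.2.2.1 + q.2.2.2 + e),
        (fun q : G × G × G × G => q.1 + q.2.1) q ∈ A + A := by
      rintro ⟨a, b, c, c'⟩ hq
      rw [Finset.mem_filter] at hq
      simp only [Finset.mem_product] at hq
      exact Finset.add_mem_add hq.1.1 hq.1.2.1
    rw [Finset.card_eq_sum_card_fiberwise hmaps]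
    refine Finset.sum_le_sum fun x _ => ?_
    rw [hr]
    dsimp only
    rw [← Finset.card_product]
    apply Finset.card_le_card_of_injOn (fun q : G × G × G × G => ((q.1, q.2.1), (q.2.2.1, q.2.2.2)))
    · rintro ⟨a, b, c, c'⟩ hq
      rw [Finset.mem_coe, Finset.mem_filter, Finset.mem_filter] at hq
      obtain ⟨⟨hq1, hq2⟩, hq3⟩ := hq
      simp only [Finset.mem_product] at hq1
      simp only at hq2 hq3
      rw [Finset.mem_coe, Finset.mem_product, Finset.mem_filter, Finset.mem_filter,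
        Finset.mem_product, Finset.mem_product]
      refine ⟨⟨⟨hq1.1, hq1.2.1⟩, hq3⟩, ⟨hq1.2.2.1, hq1.2.2.2⟩, ?_⟩
      show c + c' = x - e
      rw [← hq3, hq2]
      abel
    · rintro ⟨a, b, c, c'⟩ _ ⟨a2, b2, c2, c2'⟩ _ h
      simp only [Prod.mk.injEq] at h
      obtain ⟨⟨rfl, rfl⟩, rfl, rfl⟩ := h
      rfl
  have h2 : ∑ x ∈ A + A, r (x - e) ^ 2 ≤ ∑ x ∈ A + A, r x ^ 2 := by
    have e1 : ∑ x ∈ A + A, r (x - e) ^ 2 = ∑ y ∈ (A + A).image (fun x => x - e), r y ^ 2 := by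
      rw [Finset.sum_image]
      intro x _ y _ h
      exact sub_left_injective h
    rw [e1]
    have e2 : ∑ y ∈ (A + A).image (fun x => x - e), r y ^ 2 =
        ∑ y ∈ ((A + A).image (fun x => x - e)).filter (fun y => y ∈ A + A), r y ^ 2 := by
      rw [Finset.sum_filter]
      refine Finset.sum_congr rfl fun y _ => ?_
      by_cases h : y ∈ A + A
      · rw [if_pos h]
      · rw [if_neg h, hr0 y h]; rfl
    rw [e2]
    apply Finset.sum_le_sum_of_subset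
    intro y hy
    exact (Finset.mem_filter.1 hy).2
  have h3 : 2 * ∑ x ∈ A + A, r x * r (x - e) ≤
      ∑ x ∈ A + A, r x ^ 2 + ∑ x ∈ A + A, r (x - e) ^ 2 := by
    rw [Finset.mul_sum, ← Finset.sum_add_distrib]
    refine Finset.sum_le_sum fun x _ => ?_
    have := two_mul_le_add_sq (r x) (r (x - e))
    linarith
  rw [hE]
  omega

theorem floor_quad (x1 x2 x3 x4 Λ : ℝ) (h : |x1 + x2 - x3 - x4| ≤ Λ) (o : ℤ) (ho : Λ + 2 ≤ o) :
    ⌊x1⌋ + ⌊x2⌋ - ⌊x3⌋ - ⌊x4⌋ ∈ Finset.Icc (-o) o := by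
  have h0 := abs_le.1 h
  have a1 := Int.floor_le x1
  have a2 := Int.lt_floor_add_one x1
  have b1 := Int.floor_le x2
  have b2 := Int.lt_floor_add_one x2
  have c1 := Int.floor_le x3
  have c2 := Int.lt_floor_add_one x3
  have d1 := Int.floor_le x4
  have d2 := Int.lt_floor_add_one x4
  rw [Finset.mem_Icc]
  constructor
  · have h1 : ((-o : ℤ) : ℝ) < ((⌊x1⌋ + ⌊x2⌋ - ⌊x3⌋ - ⌊x4⌋ : ℤ) : ℝ) := by
      push_cast; linarith [h0.1]
    exact (by exact_mod_cast h1.le)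
  · have h1 : ((⌊x1⌋ + ⌊x2⌋ - ⌊x3⌋ - ⌊x4⌋ : ℤ) : ℝ) < ((o : ℤ) : ℝ) := by
      push_cast; linarith [h0.2]
    exact (by exact_mod_cast h1.le)

variable {d : ℕ}

/-- approximate quadruples and the energy of the set of cells -/
theorem tol_le {s : ℝ} (hs : 0 < s) {ι : Type} (I : Finset ι) (v p : ι → Fin d → ℝ)
    (hinj : Set.InjOn (fun i => zc s (v i) (p i)) (I : Set ι)) (Λ : ℝ) (o : ℤ) (ho0 : 0 ≤ o)
    (ho : Λ + 2 ≤ o) (Q : Finset (ι × ι × ι × ι))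
    (hQ : ∀ q ∈ Q, (q.1 ∈ I ∧ q.2.1 ∈ I ∧ q.2.2.1 ∈ I ∧ q.2.2.2 ∈ I) ∧
      (∀ k, |v q.1 k + v q.2.1 k - v q.2.2.1 k - v q.2.2.2 k| ≤ Λ * s) ∧
      (∀ k, |p q.1 k + p q.2.1 k - p q.2.2.1 k - p q.2.2.2 k| ≤ Λ * s))
    (A : Finset ((Fin d → ℤ) × (Fin d → ℤ))) (hA : A = I.image fun i => zc s (v i) (p i)) :
    (Q.card : ℝ) ≤ (((2 * o + 1 : ℤ) : ℝ) ^ d) ^ 2 * ((A.addEnergy A : ℕ) : ℝ) := by
  classical
  set z : ι → (Fin d → ℤ) × (Fin d → ℤ) := fun i => zc s (v i) (p i) with hz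
  set bx := Pool.Agent.H668.Str.box d o with hbx
  set err : ι × ι × ι × ι → (Fin d → ℤ) × (Fin d → ℤ) := fun q =>
    z q.1 + z q.2.1 - z q.2.2.1 - z q.2.2.2 with herr
  have hmaps : ∀ q ∈ Q, err q ∈ bx ×ˢ bx := by
    intro q hq
    obtain ⟨-, h1, h2⟩ := hQ q hq
    rw [Finset.mem_product, hbx]
    unfold Pool.Agent.H668.Str.box
    rw [Fintype.mem_piFinset, Fintype.mem_piFinset]
    constructor
    · intro k
      have h3 := floor_quad (v q.1 k / s) (v q.2.1 k / s) (v q.2.2.1 k / s) (v q.2.2.2 k / s) Λ (by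
        rw [← add_div, ← sub_div, ← sub_div, abs_div, abs_of_pos hs, div_le_iff₀ hs]
        exact h1 k) o ho
      exact h3
    · intro k
      have h3 := floor_quad (p q.1 k / s) (p q.2.1 k / s) (p q.2.2.1 k / s) (p q.2.2.2 k / s) Λ (by
        rw [← add_div, ← sub_div, ← sub_div, abs_div, abs_of_pos hs, div_le_iff₀ hs]
        exact h2 k) o ho
      exact h3
  have hcard : Q.card ≤ (bx ×ˢ bx).card * A.addEnergy A := by
    rw [Finset.card_eq_sum_card_fiberwise hmaps]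
    refine (Finset.sum_le_card_nsmul _ _ (A.addEnergy A) ?_).trans (by rw [smul_eq_mul])
    intro x _
    refine le_trans ?_ (shifted_le A x)
    apply Finset.card_le_card_of_injOn
      (fun q : ι × ι × ι × ι => (z q.1, z q.2.1, z q.2.2.1, z q.2.2.2))
    · intro q hq
      rw [Finset.mem_coe, Finset.mem_filter] at hq
      obtain ⟨⟨g1, g2, g3, g4⟩, -, -⟩ := hQ q hq.1
      rw [Finset.mem_coe, Finset.mem_filter]
      simp only [Finset.mem_product]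
      refine ⟨⟨?_, ?_, ?_, ?_⟩, ?_⟩
      · rw [hA]; exact Finset.mem_image_of_mem _ g1
      · rw [hA]; exact Finset.mem_image_of_mem _ g2
      · rw [hA]; exact Finset.mem_image_of_mem _ g3
      · rw [hA]; exact Finset.mem_image_of_mem _ g4
      · rw [← hq.2, herr]
        dsimp only
        abel
    · intro q hq q' hq' h
      rw [Finset.mem_coe, Finset.mem_filter] at hq hq'
      obtain ⟨⟨g1, g2, g3, g4⟩, -, -⟩ := hQ q hq.1
      obtain ⟨⟨g1', g2', g3', g4'⟩, -, -⟩ := hQ q' hq'.1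
      simp only [Prod.mk.injEq] at h
      obtain ⟨k1, k2, k3, k4⟩ := h
      have l1 := hinj g1 g1' k1
      have l2 := hinj g2 g2' k2
      have l3 := hinj g3 g3' k3
      have l4 := hinj g4 g4' k4
      exact Prod.ext l1 (Prod.ext l2 (Prod.ext l3 l4))
  have h1 : (Q.card : ℝ) ≤ ((bx ×ˢ bx).card : ℝ) * ((A.addEnergy A : ℕ) : ℝ) := by
    exact_mod_cast hcard
  rw [Finset.card_product, Nat.cast_mul, hbx, card_box d ho0] at h1
  rw [sq]
  exact h1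

/-- **Families of lines with large energy**: the volume. -/
theorem ene_vol (d : ℕ) (lam : ℝ) (hlam : 0 < lam) (H : ℝ) (hH : 0 < H) (Λ : ℝ) (hΛ : 0 ≤ Λ)
    (η : ℝ) (hη : 0 < η) :
    ∃ γ c : ℝ, 0 < γ ∧ 0 < c ∧ ∀ (s : ℝ), 0 < s → s ≤ 1 → ∀ (ι : Type) (I : Finset ι)
      (v p : ι → Fin d → ℝ) (b : ι → ℝ),
      (∀ i ∈ I, ∀ j ∈ I, i ≠ j → fl s (v i) ≠ fl s (v j)) →
      (∀ i ∈ I, ∀ l, |v i l| ≤ H) → (∀ i ∈ I, |b i| ≤ H) →
      ∀ (Q : Finset (ι × ι × ι × ι)),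
      (∀ q ∈ Q, (q.1 ∈ I ∧ q.2.1 ∈ I ∧ q.2.2.1 ∈ I ∧ q.2.2.2 ∈ I) ∧
        (∀ k, |v q.1 k + v q.2.1 k - v q.2.2.1 k - v q.2.2.2 k| ≤ Λ * s) ∧
        (∀ k, |p q.1 k + p q.2.1 k - p q.2.2.1 k - p q.2.2.2 k| ≤ Λ * s)) →
      s ^ γ * (I.card : ℝ) ^ 3 ≤ (Q.card : ℝ) →
      ∀ (T : Set (ℝ × (Fin d → ℝ))), MeasurableSet T →
      (∀ i ∈ I, ∀ t ∈ Set.Icc (b i) (b i + lam), ∀ y : Fin d → ℝ,
        (∀ l, |y l - (p i l + t * v i l)| ≤ s) → (t, y) ∈ T) →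
      ENNReal.ofReal (c * s ^ η * (s ^ d * (I.card : ℝ))) ≤ volume T := by
  classical
  obtain ⟨k₀, hk₀⟩ := exists_nat_gt (2 * (d : ℝ) / η)
  obtain ⟨S, hS, hSk⟩ : ∃ S : Finset ℚ, (-1 : ℚ) ∉ S ∧ S.card = k₀ := by
    refine ⟨(Finset.range k₀).image fun i : ℕ => (i : ℚ), ?_, ?_⟩
    · intro h
      obtain ⟨i, -, hi⟩ := Finset.mem_image.1 h
      have : (0 : ℚ) ≤ i := Nat.cast_nonneg _
      linarith
    · rw [Finset.card_image_of_injective _ Nat.cast_injective, Finset.card_range]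
  obtain ⟨m, c, hc, hcore⟩ := ene_core S hS d lam hlam H hH
  have hd0 : (0 : ℝ) ≤ d := Nat.cast_nonneg d
  have hm0 : (0 : ℝ) ≤ m := Nat.cast_nonneg m
  have hd : (d : ℝ) / (S.card + 1) ≤ η / 2 := by
    rw [hSk, div_le_iff₀ (by positivity)]
    rw [div_lt_iff₀ hη] at hk₀
    nlinarith
  set γ : ℝ := η / (2 * (10 * m + 1)) with hγ
  have hγpos : 0 < γ := by positivity
  have hexp : (10 * m + 1) * γ + (d : ℝ) / (S.card + 1) ≤ η := by
    have h1 : (10 * (m : ℝ) + 1) * γ = η / 2 := by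
      rw [hγ]; field_simp
    linarith
  set o : ℤ := ⌈Λ + 2⌉ with ho
  have ho1 : Λ + 2 ≤ (o : ℝ) := Int.le_ceil _
  have ho0 : 0 ≤ o := Int.ceil_nonneg (by positivity)
  set Cx : ℝ := (((2 * o + 1 : ℤ) : ℝ) ^ d) ^ 2 with hCx
  have hCx1 : 1 ≤ Cx := by
    apply one_le_pow₀
    apply one_le_pow₀
    exact_mod_cast (by omega : (1 : ℤ) ≤ 2 * o + 1)
  refine ⟨γ, c * ((2 ^ 22 * Cx ^ 10) ^ m)⁻¹ * (8 * Cx)⁻¹, hγpos, by positivity, ?_⟩
  intro s hs hs1 ι I v p b hsep hv hb Q hQ hE T hT hTn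
  rcases I.eq_empty_or_nonempty with hI | hIne
  · rw [hI, Finset.card_empty, Nat.cast_zero, mul_zero, mul_zero, ENNReal.ofReal_zero]
    exact zero_le
  set z : ι → (Fin d → ℤ) × (Fin d → ℤ) := fun i => zc s (v i) (p i) with hz
  have hzinj : Set.InjOn z (I : Set ι) := by
    intro i hi j hj h
    by_contra hne
    exact hsep i hi j hj hne (congrArg Prod.fst h)
  set A := I.image z with hA
  have hAc : A.card = I.card := Finset.card_image_of_injOn hzinj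
  have hAne : A.Nonempty := hIne.image _
  have h1 := tol_le hs I v p hzinj Λ o ho0 ho1 Q hQ A hA
  set K : ℝ := Cx * s ^ (-γ) with hK
  have hsγ : 1 ≤ s ^ (-γ) := Real.one_le_rpow_of_pos_of_le_one_of_nonpos hs hs1 (by linarith)
  have hK1 : 1 ≤ K := one_le_mul_of_one_le_of_one_le hCx1 hsγ
  have hE' : (A.card : ℝ) ^ 3 ≤ K * ((A.addEnergy A : ℕ) : ℝ) := by
    rw [hAc, hK]
    have h2 : s ^ γ * (I.card : ℝ) ^ 3 ≤ Cx * ((A.addEnergy A : ℕ) : ℝ) := hE.trans h1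
    have h3 : s ^ (-γ) * (s ^ γ * (I.card : ℝ) ^ 3) = (I.card : ℝ) ^ 3 := by
      rw [← mul_assoc, ← Real.rpow_add hs]
      simp
    rw [← h3]
    calc s ^ (-γ) * (s ^ γ * (I.card : ℝ) ^ 3)
        ≤ s ^ (-γ) * (Cx * ((A.addEnergy A : ℕ) : ℝ)) := by gcongr
      _ = _ := by ring
  obtain ⟨B, hBA, hBne, hAB, hBB⟩ := Pool.Agent.H217R3.AK.bsg A hAne K (by linarith) hE'
  set J := I.filter fun i => z i ∈ B with hJ
  have hJI : J ⊆ I := Finset.filter_subset _ _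
  have hJB : J.image z = B := by
    ext x
    rw [Finset.mem_image]
    constructor
    · rintro ⟨i, hi, rfl⟩
      exact (Finset.mem_filter.1 hi).2
    · intro hx
      obtain ⟨i, hi, rfl⟩ := Finset.mem_image.1 (hBA hx)
      exact ⟨i, Finset.mem_filter.2 ⟨hi, hx⟩, rfl⟩
  have hJc : (J.card : ℝ) = B.card := by
    rw [← hJB, Finset.card_image_of_injOn (hzinj.mono (Finset.coe_subset.2 hJI))]
  have key := hcore s hs hs1 ι J v p b
    (fun i hi j hj => hsep i (hJI hi) j (hJI hj)) (fun i hi => hv i (hJI hi))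
    (fun i hi => hb i (hJI hi)) (2 ^ 22 * K ^ 10)
    (one_le_mul_of_one_le_of_one_le (by norm_num) (one_le_pow₀ hK1)) (by
      rw [show (J.image fun i => zc s (v i) (p i)) = B from hJB, hJc]
      exact hBB) T hT (fun i hi => hTn i (hJI hi))
  refine le_trans (ENNReal.ofReal_le_ofReal ?_) key
  have h2 : (I.card : ℝ) * (8 * K)⁻¹ ≤ J.card := by
    rw [hJc, ← div_eq_mul_inv, div_le_iff₀ (by positivity), ← hAc]
    linarith
  have h3 : ((2 ^ 22 * K ^ 10) ^ m)⁻¹ = ((2 ^ 22 * Cx ^ 10) ^ m)⁻¹ * s ^ (10 * m * γ) := by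
    rw [hK, mul_pow Cx, ← mul_assoc, mul_pow (2 ^ 22 * Cx ^ 10), mul_inv]
    congr 1
    rw [← pow_mul, ← Real.rpow_natCast, ← Real.rpow_mul hs.le, ← Real.rpow_neg hs.le]
    congr 1
    push_cast
    ring
  have h4 : (8 * K)⁻¹ = (8 * Cx)⁻¹ * s ^ γ := by
    rw [hK, ← mul_assoc, mul_inv, ← Real.rpow_neg hs.le, neg_neg]
  rw [h4] at h2
  rw [h3]
  calc c * ((2 ^ 22 * Cx ^ 10) ^ m)⁻¹ * (8 * Cx)⁻¹ * s ^ η * (s ^ d * (I.card : ℝ))
      ≤ c * ((2 ^ 22 * Cx ^ 10) ^ m)⁻¹ * (8 * Cx)⁻¹ *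
          s ^ ((10 * m + 1) * γ + (d : ℝ) / (S.card + 1)) * (s ^ d * (I.card : ℝ)) := by
        have := Real.rpow_le_rpow_of_exponent_ge hs hs1 hexp
        gcongr
    _ = c * (((2 ^ 22 * Cx ^ 10) ^ m)⁻¹ * s ^ (10 * m * γ)) * s ^ d *
          s ^ ((d : ℝ) / (S.card + 1)) * ((I.card : ℝ) * ((8 * Cx)⁻¹ * s ^ γ)) := by
        rw [Real.rpow_add hs, show (10 * (m : ℝ) + 1) * γ = 10 * m * γ + γ by ring,
          Real.rpow_add hs]
        ring
    _ ≤ _ := by gcongr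

end Pool.Agent.H668.Ene
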