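import Pool.Agent.H668.Str.Slab
import Pool.Agent.H217R3.AK.Bsg

/-!
# Families of lines with small doubling: the positions at one height
-/

set_option autoImplicit false

open Finset Set
open scoped Pointwise

namespace Pool.Agent.H668.Ene
open Pool.Agent.W46.KK Pool.Agent.H668.Str

variable {d : ℕ}

/-- the cell of the parameters of a line -/
noncomputable def zc (s : ℝ) (v p : Fin d → ℝ) : (Fin d → ℤ) × (Fin d → ℤ) := (fl s v, fl s p)

theorem floor_comb (X x u E : ℝ) (h : |X - x - u| ≤ E) (o : ℤ) (ho : E + 2 ≤ o) :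
    -o ≤ ⌊X⌋ - ⌊x⌋ - ⌊u⌋ ∧ ⌊X⌋ - ⌊x⌋ - ⌊u⌋ ≤ o := by
  have h0 := abs_le.1 h
  have a1 := Int.floor_le X
  have a2 := Int.lt_floor_add_one X
  have b1 := Int.floor_le x
  have b2 := Int.lt_floor_add_one x
  have c1 := Int.floor_le u
  have c2 := Int.lt_floor_add_one u
  constructor
  · have h1 : ((-o : ℤ) : ℝ) < ((⌊X⌋ - ⌊x⌋ - ⌊u⌋ + 1 : ℤ) : ℝ) := by push_cast; linarith [h0.1]
    have h2 : -o < ⌊X⌋ - ⌊x⌋ - ⌊u⌋ + 1 := by exact_mod_cast h1
    omega
  · have h1 : ((⌊X⌋ - ⌊x⌋ - ⌊u⌋ : ℤ) : ℝ) < ((o + 1 : ℤ) : ℝ) := by push_cast; linarith [h0.2]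
    have h2 : ⌊X⌋ - ⌊x⌋ - ⌊u⌋ < o + 1 := by exact_mod_cast h1
    omega

/-- the positions at height `t` of a family of lines with small doubling have small doubling -/
theorem proj_double {s : ℝ} (hs : 0 < s) {ι : Type} (I : Finset ι) (v p : ι → Fin d → ℝ)
    (t H : ℝ) (ht : |t| ≤ H)
    (hinj : Set.InjOn (fun i => zc s (v i) (p i)) (I : Set ι)) (o : ℤ) (ho : 2 * H + 4 ≤ o)
    (B : Finset ((Fin d → ℤ) × (Fin d → ℤ))) (hB : ∀ i ∈ I, zc s (v i) (p i) ∈ B)
    (P : Set (Fin d → ℝ)) (hP : P = (fun i => fun l => p i l + t * v i l) '' (I : Set ι)) :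
    ((cells s (P + P)).ncard : ℝ) * (I.card : ℝ) ≤
      ((2 * o + 1 : ℤ) : ℝ) ^ d * (((B + B - B).card : ℝ) * ((cells s P).ncard : ℝ)) := by
  classical
  set pos : ι → Fin d → ℝ := fun i => fun l => p i l + t * v i l with hpos
  have hH : 0 ≤ H := (abs_nonneg t).trans ht
  have ho0 : 0 ≤ o := by
    have : (0 : ℝ) ≤ o := by linarith
    exact_mod_cast this
  have hPfin : P.Finite := by rw [hP]; exact (Finset.finite_toSet I).image _
  have hPb : Bornology.IsBounded P := hPfin.isBounded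
  have hPPb : Bornology.IsBounded (P + P) := hPb.add hPb
  rcases I.eq_empty_or_nonempty with hI | ⟨i₀, hi₀⟩
  · rw [hI, Finset.card_empty, Nat.cast_zero, mul_zero]
    have h0 : (0 : ℝ) ≤ ((2 * o + 1 : ℤ) : ℝ) := by exact_mod_cast (by omega : (0 : ℤ) ≤ 2 * o + 1)
    positivity
  -- representatives
  have hex : ∀ y : Fin d → ℤ, ∃ q : ι × ι, y ∈ cells s (P + P) →
      q.1 ∈ I ∧ q.2 ∈ I ∧ fl s (pos q.1 + pos q.2) = y := by
    intro y
    by_cases h : y ∈ cells s (P + P)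
    · obtain ⟨x, hx, hxy⟩ := h
      obtain ⟨x1, h1, x2, h2, rfl⟩ := Set.mem_add.1 hx
      rw [hP] at h1 h2
      obtain ⟨i, hi, rfl⟩ := h1
      obtain ⟨j, hj, rfl⟩ := h2
      exact ⟨(i, j), fun _ => ⟨hi, hj, hxy⟩⟩
    · exact ⟨(i₀, i₀), fun h' => absurd h' h⟩
  choose q hq using hex
  set z : ι → (Fin d → ℤ) × (Fin d → ℤ) := fun i => zc s (v i) (p i) with hz
  set Φ : (Fin d → ℤ) × (Fin d → ℤ) → (Fin d → ℤ) := fun w l => ⌊(w.2 l : ℝ) + t * w.1 l⌋ with hΦ
  set Y := dc s (P + P) with hY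
  set C := dc s P with hC
  set F : (Fin d → ℤ) × ι → ((Fin d → ℤ) × (Fin d → ℤ)) × ((Fin d → ℤ) × (Fin d → ℤ)) :=
    fun yi => (z (q yi.1).1 + z (q yi.1).2 - z yi.2,
      (fl s (pos yi.2), yi.1 - fl s (pos yi.2) -
        Φ (z (q yi.1).1 + z (q yi.1).2 - z yi.2))) with hF
  have hmaps : ∀ yi ∈ Y ×ˢ I, F yi ∈ (B + B - B) ×ˢ (C ×ˢ Pool.Agent.H668.Str.box d o) := by
    rintro ⟨y, i⟩ hyi
    rw [Finset.mem_product] at hyi
    obtain ⟨hy, hi⟩ := hyi
    dsimp only at hy hi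
    rw [hY, mem_dc hs hPPb] at hy
    obtain ⟨h1, h2, h3⟩ := hq y hy
    rw [Finset.mem_product, Finset.mem_product]
    refine ⟨?_, ?_, ?_⟩
    · exact Finset.sub_mem_sub (Finset.add_mem_add (hB _ h1) (hB _ h2)) (hB _ hi)
    · rw [hC, mem_dc hs hPb]
      refine ⟨pos i, ?_, rfl⟩
      rw [hP]
      exact ⟨i, hi, rfl⟩
    · show y - fl s (pos i) - Φ (z (q y).1 + z (q y).2 - z i) ∈ Pool.Agent.H668.Str.box d o
      unfold Pool.Agent.H668.Str.box
      rw [Fintype.mem_piFinset]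
      intro l
      rw [Finset.mem_Icc]
      have e1 : y l = ⌊(pos (q y).1 l + pos (q y).2 l) / s⌋ := by
        rw [← congrFun h3 l]
        rfl
      have e2 : (y - fl s (pos i) - Φ (z (q y).1 + z (q y).2 - z i)) l =
          ⌊(pos (q y).1 l + pos (q y).2 l) / s⌋ - ⌊pos i l / s⌋ -
          ⌊(((z (q y).1 + z (q y).2 - z i).2 l : ℤ) : ℝ) +
            t * (((z (q y).1 + z (q y).2 - z i).1 l : ℤ) : ℝ)⌋ := by
        rw [← e1]
        rfl
      rw [e2]
      apply floor_comb _ _ _ (2 * H + 2)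
      · -- the real estimate
        have hfr : ∀ x : ℝ, 0 ≤ x / s - ⌊x / s⌋ ∧ x / s - ⌊x / s⌋ < 1 := by
          intro x
          have a1 := Int.floor_le (x / s)
          have a2 := Int.lt_floor_add_one (x / s)
          constructor <;> linarith
        set i1 := (q y).1 with hi1
        set i2 := (q y).2 with hi2
        have e3 : (((z i1 + z i2 - z i).2 l : ℤ) : ℝ) =
            (⌊p i1 l / s⌋ : ℝ) + ⌊p i2 l / s⌋ - ⌊p i l / s⌋ := by
          have : (z i1 + z i2 - z i).2 l = ⌊p i1 l / s⌋ + ⌊p i2 l / s⌋ - ⌊p i l / s⌋ := rfl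
          rw [this]; push_cast; ring
        have e4 : (((z i1 + z i2 - z i).1 l : ℤ) : ℝ) =
            (⌊v i1 l / s⌋ : ℝ) + ⌊v i2 l / s⌋ - ⌊v i l / s⌋ := by
          have : (z i1 + z i2 - z i).1 l = ⌊v i1 l / s⌋ + ⌊v i2 l / s⌋ - ⌊v i l / s⌋ := rfl
          rw [this]; push_cast; ring
        rw [e3, e4]
        have e5 : (pos i1 l + pos i2 l) / s - pos i l / s -
            ((⌊p i1 l / s⌋ : ℝ) + ⌊p i2 l / s⌋ - ⌊p i l / s⌋ +
              t * ((⌊v i1 l / s⌋ : ℝ) + ⌊v i2 l / s⌋ - ⌊v i l / s⌋)) =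
            ((p i1 l / s - ⌊p i1 l / s⌋) + (p i2 l / s - ⌊p i2 l / s⌋) -
              (p i l / s - ⌊p i l / s⌋)) +
            t * ((v i1 l / s - ⌊v i1 l / s⌋) + (v i2 l / s - ⌊v i2 l / s⌋) -
              (v i l / s - ⌊v i l / s⌋)) := by
          simp only [hpos]
          ring
        rw [e5]
        have f1 := hfr (p i1 l)
        have f2 := hfr (p i2 l)
        have f3 := hfr (p i l)
        have g1 := hfr (v i1 l)
        have g2 := hfr (v i2 l)
        have g3 := hfr (v i l)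
        refine (abs_add_le _ _).trans ?_
        have k1 : |(p i1 l / s - ⌊p i1 l / s⌋) + (p i2 l / s - ⌊p i2 l / s⌋) -
              (p i l / s - ⌊p i l / s⌋)| ≤ 2 := by
          rw [abs_le]; constructor <;> linarith [f1.1, f1.2, f2.1, f2.2, f3.1, f3.2]
        have k2 : |(v i1 l / s - ⌊v i1 l / s⌋) + (v i2 l / s - ⌊v i2 l / s⌋) -
              (v i l / s - ⌊v i l / s⌋)| ≤ 2 := by
          rw [abs_le]; constructor <;> linarith [g1.1, g1.2, g2.1, g2.2, g3.1, g3.2]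
        rw [abs_mul]
        have k3 : |t| * |(v i1 l / s - ⌊v i1 l / s⌋) + (v i2 l / s - ⌊v i2 l / s⌋) -
              (v i l / s - ⌊v i l / s⌋)| ≤ H * 2 :=
          mul_le_mul ht k2 (abs_nonneg _) hH
        linarith
      · push_cast
        linarith
  have hinjF : Set.InjOn F ((Y ×ˢ I : Finset _) : Set _) := by
    rintro ⟨y, i⟩ hyi ⟨y', i'⟩ hyi' h
    rw [Finset.mem_coe, Finset.mem_product] at hyi hyi'
    have h1 : z (q y).1 + z (q y).2 - z i = z (q y').1 + z (q y').2 - z i' := congrArg Prod.fst h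
    have h2 : fl s (pos i) = fl s (pos i') := congrArg (fun x => x.2.1) h
    have h3 : y - fl s (pos i) - Φ (z (q y).1 + z (q y).2 - z i) =
        y' - fl s (pos i') - Φ (z (q y').1 + z (q y').2 - z i') := congrArg (fun x => x.2.2) h
    rw [← h1, ← h2] at h3
    have h4 : y = y' := by
      have := sub_left_injective (sub_left_injective h3)
      exact this
    subst h4
    have h5 : z i = z i' := by
      have := sub_right_injective h1
      exact this
    have h6 : i = i' := hinj hyi.2 hyi'.2 h5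
    rw [h6]
  have hcard := Finset.card_le_card_of_injOn F hmaps hinjF
  rw [Finset.card_product, Finset.card_product, Finset.card_product] at hcard
  have hcard' : (Y.card : ℝ) * (I.card : ℝ) ≤ ((B + B - B).card : ℝ) *
      ((C.card : ℝ) * ((Pool.Agent.H668.Str.box d o).card : ℝ)) := by exact_mod_cast hcard
  rw [card_box d ho0, hY, hC, card_dc hs hPPb, card_dc hs hPb] at hcard'
  calc ((cells s (P + P)).ncard : ℝ) * (I.card : ℝ)
      ≤ ((B + B - B).card : ℝ) * (((cells s P).ncard : ℝ) * ((2 * o + 1 : ℤ) : ℝ) ^ d) := hcard'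
    _ = _ := by ring

end Pool.Agent.H668.Ene
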