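import Pool.Agent.H668.Ene.Energy

/-!
# Families of tubes whose axes have large additive energy
-/

set_option autoImplicit false

open Finset Set MeasureTheory
open scoped Pointwise ENNReal

namespace Pool.Agent.H668.Ene
open Pool.Agent.W46.KK Pool.Agent.H668.Str

variable {d : ℕ}

/-- slopes of a line of direction `e` -/
noncomputable def slope (e : EuclideanSpace ℝ (Fin (d + 1))) : Fin d → ℝ :=
  fun k => e k.succ / e 0

/-- the point of height zero of the line through `a` of direction `e` -/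
noncomputable def foot (a e : EuclideanSpace ℝ (Fin (d + 1))) : Fin d → ℝ :=
  fun k => a k.succ - a 0 * (e k.succ / e 0)

/-- the additive quadruples of a family of lines -/
def quads {ι : Type} (δ : ℝ) (a e : ι → EuclideanSpace ℝ (Fin (d + 1))) : Set (ι × ι × ι × ι) :=
  {q | ∀ k : Fin d,
    |slope (e q.1) k + slope (e q.2.1) k - slope (e q.2.2.1) k - slope (e q.2.2.2) k| ≤ δ ∧
    |foot (a q.1) (e q.1) k + foot (a q.2.1) (e q.2.1) k - foot (a q.2.2.1) (e q.2.2.1) k -
      foot (a q.2.2.2) (e q.2.2.2) k| ≤ δ}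

theorem tubes_energy (d : ℕ) (c₀ : ℝ) (hc₀ : 0 < c₀) (η : ℝ) (hη : 0 < η) :
    ∃ γ c : ℝ, 0 < γ ∧ 0 < c ∧ ∀ (δ : ℝ), 0 < δ → δ < 1 → ∀ (ι : Type) [Fintype ι]
      (a e : ι → EuclideanSpace ℝ (Fin (d + 1))), (∀ i, ‖e i‖ = 1) → (∀ i, c₀ ≤ e i 0) →
      (∀ i, |a i 0| ≤ 1) → (∀ i j, i ≠ j → δ ≤ ‖e i - e j‖) →
      δ ^ γ * (Fintype.card ι : ℝ) ^ 3 ≤ ((quads δ a e).ncard : ℝ) →
      ENNReal.ofReal (c * δ ^ η * (δ ^ d * (Fintype.card ι : ℝ))) ≤
        volume (⋃ i, tube δ (a i) (e i)) := by
  classical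
  have hd1 : (0 : ℝ) < (d : ℝ) + 1 := by positivity
  have hd0 : (0 : ℝ) ≤ d := Nat.cast_nonneg d
  set H : ℝ := 1 / c₀ + 1 + c₀ with hH
  have hHpos : 0 < H := by positivity
  obtain ⟨γ, c, hγ, hc, hvol⟩ := ene_vol d (c₀ / 2) (by positivity) H hHpos (4 * (d + 1))
    (by positivity) η hη
  set θ : ℝ := 1 / (4 * ((d : ℝ) + 1)) with hθ
  have hθpos : 0 < θ := by positivity
  refine ⟨γ, c * θ ^ η * θ ^ d, hγ, by positivity, ?_⟩
  intro δ hδ hδ1 ι _ a e he he0 ha0 hsep hE
  set s : ℝ := θ * δ with hs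
  have hspos : 0 < s := by positivity
  have hθ1 : θ ≤ 1 := by
    rw [hθ, div_le_one (by positivity)]; linarith
  have hsδ : s ≤ δ := by rw [hs]; nlinarith
  have hs1 : s ≤ 1 := by linarith
  have hδs : δ = 4 * ((d : ℝ) + 1) * s := by rw [hs, hθ]; field_simp
  have he0pos : ∀ i, 0 < e i 0 := fun i => lt_of_lt_of_le hc₀ (he0 i)
  have key := hvol s hspos hs1 ι Finset.univ (fun i => slope (e i)) (fun i => foot (a i) (e i))
    (fun i => a i 0 - c₀ / 4) ?_ ?_ ?_ (quads δ a e).toFinset ?_ ?_
    ((eqv d).symm ⁻¹' (⋃ i, tube δ (a i) (e i))) ?_ ?_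
  · rw [(eqv_mp d).symm.measure_preimage_equiv, Finset.card_univ] at key
    refine le_trans (ENNReal.ofReal_le_ofReal (le_of_eq ?_)) key
    rw [hs, Real.mul_rpow hθpos.le hδ.le, mul_pow]
    ring
  · -- separation
    intro i _ j _ hij h
    have hsgn : 0 < e i 0 * e j 0 := mul_pos (he0pos i) (he0pos j)
    obtain ⟨k, hk⟩ := slope_sep hδ 0 (e i) (e j) (he i) (he j) hsgn (hsep i j hij)
    rw [Fin.succAbove_zero] at hk
    have h1 : ⌊slope (e i) k / s⌋ = ⌊slope (e j) k / s⌋ := congrFun h k
    have h2 : δ / (2 * (d + 1)) = 2 * s := by rw [hδs]; field_simp; ring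
    rw [h2] at hk
    have h3 : 2 * s ≤ |slope (e i) k - slope (e j) k| := hk
    have a1 := Int.floor_le (slope (e i) k / s)
    have a2 := Int.lt_floor_add_one (slope (e i) k / s)
    have b1 := Int.floor_le (slope (e j) k / s)
    have b2 := Int.lt_floor_add_one (slope (e j) k / s)
    rw [h1] at a1 a2
    have h4 : |slope (e i) k / s - slope (e j) k / s| < 1 := by
      rw [abs_lt]; constructor <;> linarith
    rw [← sub_div, abs_div, abs_of_pos hspos, div_lt_one hspos] at h4
    linarith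
  · -- slopes are bounded
    intro i _ k
    unfold slope
    have h1 := PiLp.norm_apply_le (e i) k.succ
    rw [he i, Real.norm_eq_abs] at h1
    rw [abs_div, abs_of_pos (he0pos i), div_le_iff₀ (he0pos i)]
    have h2 : 1 ≤ H * e i 0 := by
      calc (1 : ℝ) = 1 / c₀ * c₀ := by field_simp
        _ ≤ H * e i 0 := by
          apply mul_le_mul _ (he0 i) hc₀.le hHpos.le
          rw [hH]; linarith
    linarith
  · -- heights are bounded
    intro i _
    have h1 := abs_le.1 (ha0 i)
    have h2 : 0 < 1 / c₀ := by positivity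
    rw [abs_le]
    constructor
    · rw [hH]; linarith [h1.1]
    · rw [hH]; linarith [h1.2]
  · -- quadruples
    intro q hq
    rw [Set.mem_toFinset] at hq
    refine ⟨⟨Finset.mem_univ _, Finset.mem_univ _, Finset.mem_univ _, Finset.mem_univ _⟩, ?_, ?_⟩
    · intro k
      have := (hq k).1
      rw [hδs] at this
      exact this
    · intro k
      have := (hq k).2
      rw [hδs] at this
      exact this
  · -- energy
    rw [Finset.card_univ, ← Set.ncard_eq_toFinset_card' (quads δ a e)]
    refine le_trans ?_ hE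
    have := Real.rpow_le_rpow hspos.le hsδ hγ.le
    gcongr
  · -- measurable
    apply (eqv d).symm.measurable
    exact MeasurableSet.iUnion fun i => (tube_isClosed δ (a i) (e i)).measurableSet
  · -- the tubes contain the neighbourhoods
    intro i _ t ht y hy
    rw [Set.mem_preimage, eqv_symm, Set.mem_iUnion]
    refine ⟨i, ?_⟩
    apply near_axis (a i) (e i) _ (he i) ((t - a i 0) / e i 0) (((d : ℝ) + 1) * s)
    · have h1 : |(t - a i 0) / e i 0| ≤ 1 / 4 := by
        rw [abs_div, abs_of_pos (he0pos i), div_le_iff₀ (he0pos i)]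
        have h2 : |t - a i 0| ≤ c₀ / 4 := by
          rw [abs_le]; constructor <;> linarith [ht.1, ht.2]
        linarith [he0 i]
      have h3 : ((d : ℝ) + 1) * s ≤ 1 / 4 := by
        have : ((d : ℝ) + 1) * s = δ / 4 := by rw [hδs]; ring
        rw [this]; linarith
      linarith
    · have : ((d : ℝ) + 1) * s = δ / 4 := by rw [hδs]; ring
      rw [this]; linarith
    · rw [EuclideanSpace.norm_eq]
      apply Real.sqrt_le_iff.mpr
      refine ⟨by positivity, ?_⟩
      rw [Fin.sum_univ_succ]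
      have h0 : ((WithLp.toLp 2 (Fin.cons t y : Fin (d + 1) → ℝ) : EuclideanSpace ℝ (Fin (d + 1))) -
          (a i + ((t - a i 0) / e i 0) • e i)) 0 = 0 := by
        simp only [PiLp.sub_apply, PiLp.add_apply, PiLp.smul_apply, smul_eq_mul, Fin.cons_zero]
        rw [div_mul_cancel₀ _ (he0pos i).ne']
        ring
      have h1 : ∀ k : Fin d, ((WithLp.toLp 2 (Fin.cons t y : Fin (d + 1) → ℝ) :
          EuclideanSpace ℝ (Fin (d + 1))) - (a i + ((t - a i 0) / e i 0) • e i)) k.succ =
          y k - (foot (a i) (e i) k + t * slope (e i) k) := by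
        intro k
        simp only [PiLp.sub_apply, PiLp.add_apply, PiLp.smul_apply, smul_eq_mul, Fin.cons_succ,
          foot, slope]
        have := (he0pos i).ne'
        field_simp
        ring
      rw [h0]
      simp only [h1, norm_zero]
      have h2 : ∑ k : Fin d, ‖y k - (foot (a i) (e i) k + t * slope (e i) k)‖ ^ 2 ≤
          ∑ _k : Fin d, s ^ 2 := by
        refine Finset.sum_le_sum fun k _ => ?_
        rw [Real.norm_eq_abs]
        exact pow_le_pow_left₀ (abs_nonneg _) (hy k) 2
      rw [Finset.sum_const, Finset.card_univ, Fintype.card_fin, nsmul_eq_mul] at h2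
      nlinarith [sq_nonneg s]

end Pool.Agent.H668.Ene
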